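import Pool.Agent.H710Z.LR.Meet

set_option autoImplicit false

namespace Pool.Agent.Results.MP_e5d384_lc.AAndFunctions

/-- **The log-rank conjecture for all AND-functions (meet matrices).**
Let `L` be any finite meet-semilattice (for `L = Fin n → Bool` the meet `x ⊓ y` is the bitwise AND)
and let `f : L → {0,1}` be arbitrary. Then `F(x, y) = f(x ⊓ y)` has a deterministic two-party
protocol with at most `400 (log₂ r + 1)^7` bits, where `r` is the real rank of the communication
matrix of `F`; the bound does not depend on the size of `L`. (Protocols exactly as in the frozen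
statement S15531: `t` is the transcript so far, `owner t` says who speaks, `c` bits are exchanged,
and the answer is a function of the transcript.) -/
theorem result (L : Type) [SemilatticeInf L] [Fintype L] (f : L → Bool) :
    ∃ (c : ℕ) (owner : List Bool → Bool) (a : List Bool → L → Bool) (b : List Bool → L → Bool)
      (out : List Bool → Bool),
      (∀ x y : L, out (Nat.iterate
        (fun t : List Bool => t ++ [if owner t then a t x else b t y]) c []) = f (x ⊓ y)) ∧
      (c : ℝ) ≤ 400 * (Real.logb 2
          ((Matrix.of (fun x y : L => if f (x ⊓ y) then (1 : ℝ) else 0)).rank : ℝ) + 1) ^ 7 := by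
  obtain ⟨c, ⟨owner, a, b, out, h⟩, hc⟩ := Pool.Agent.H710Z.LR.meet_final f
  exact ⟨c, owner, a, b, out, h, hc⟩

end Pool.Agent.Results.MP_e5d384_lc.AAndFunctions
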